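import Mathlib

/-!
# Shifted Douglas-Rachford iterates for two balls converge

`A = closedBall a r` and `B = closedBall b s` are closed balls of a finite-dimensional Euclidean
space `X` (in particular of `ℝ³`), `T = (Id + R_B R_A) / 2` is the Douglas-Rachford operator and `v`
its minimal displacement vector.  For every `x` the sequence `T^n x + n v` converges.

Outline.  For disjoint balls with centres `a`, `b = a + d e`, one has `v = -(d - r - s) e` and
`T (a + t e) = a + t e - v` for `t ≥ r`.  The sequence `y n = T^n x + n v` is Fejer monotone with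
respect to this ray, and `y (n+1) - y n → 0`, since `T` is firmly nonexpansive.  Projections onto
balls keep the plane through `a`, `b`, `x` invariant; so `y n = a + α n e + β n p` with a fixed
vector `p` orthogonal to `e`.  Fejer monotonicity shows that `α n` and `(β n)^2` converge, and
`β (n+1) - β n → 0` then gives the convergence of `β n`.
-/

open Filter Topology Metric
open scoped RealInnerProductSpace

namespace Pool.Agent.Results.MP_ef197a_an.ShiftedIteratesConverge

variable {X : Type*} [NormedAddCommGroup X] [InnerProductSpace ℝ X]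

/-- `P` is the nearest-point projection onto `C`. -/
def IsProjection (C : Set X) (P : X → X) : Prop :=
  ∀ x, P x ∈ C ∧ ∀ y ∈ C, ‖x - P x‖ ≤ ‖x - y‖

/-- The reflector `2 P - Id`. -/
def reflector (P : X → X) (x : X) : X := (2 : ℝ) • P x - x

/-- The Douglas-Rachford operator `(Id + R_B R_A) / 2` of two projections. -/
noncomputable def drOp (PA PB : X → X) (x : X) : X :=
  (1 / 2 : ℝ) • (x + reflector PB (reflector PA x))

/-- `v` is the element of least norm of the closure of the range of `Id - T`. -/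
def IsMinimalDisplacement (T : X → X) (v : X) : Prop :=
  v ∈ closure (Set.range fun x => x - T x) ∧
    ∀ w ∈ closure (Set.range fun x => x - T x), ‖v‖ ≤ ‖w‖

/-! ### Projections -/

theorem variational {C : Set X} (hC : Convex ℝ C) {P : X → X} (hP : IsProjection C P) (x y : X)
    (hy : y ∈ C) : ⟪x - P x, y - P x⟫ ≤ 0 := by
  by_contra hcon
  push Not at hcon
  obtain ⟨hp, hmin⟩ := hP x
  set p := P x with hpdef
  set i := ⟪x - p, y - p⟫ with hi
  have hn : 0 < ‖y - p‖ ^ 2 := by
    rcases eq_or_ne (y - p) 0 with h | h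
    · rw [hi, h, inner_zero_right] at hcon
      exact absurd hcon (lt_irrefl _)
    · positivity
  -- choose `t`
  set t := min 1 (i / ‖y - p‖ ^ 2) with ht
  have ht0 : 0 < t := lt_min one_pos (div_pos hcon hn)
  have ht1 : t ≤ 1 := min_le_left _ _
  have ht2 : t * ‖y - p‖ ^ 2 ≤ i := by
    have : t ≤ i / ‖y - p‖ ^ 2 := min_le_right _ _
    rwa [le_div_iff₀ hn] at this
  have hz : p + t • (y - p) ∈ C := by
    have := hC hp hy (by linarith : (0 : ℝ) ≤ 1 - t) ht0.le (by ring)
    convert this using 1
    module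
  have h1 := hmin _ hz
  have h2 : ‖x - p‖ ^ 2 ≤ ‖x - (p + t • (y - p))‖ ^ 2 := by
    apply pow_le_pow_left₀ (norm_nonneg _) h1
  have h3 : x - (p + t • (y - p)) = (x - p) - t • (y - p) := by module
  rw [h3, norm_sub_sq_real (x - p) (t • (y - p)), inner_smul_right, norm_smul,
    Real.norm_of_nonneg ht0.le, mul_pow] at h2
  have h4 : 2 * (t * i) ≤ t ^ 2 * ‖y - p‖ ^ 2 := by linarith
  have h5 : t ^ 2 * ‖y - p‖ ^ 2 ≤ t * i := by
    have := mul_le_mul_of_nonneg_left ht2 ht0.le
    calc t ^ 2 * ‖y - p‖ ^ 2 = t * (t * ‖y - p‖ ^ 2) := by ring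
      _ ≤ t * i := this
  have h6 : 0 < t * i := mul_pos ht0 hcon
  linarith

theorem projection_eq {C : Set X} (hC : Convex ℝ C) {P : X → X} (hP : IsProjection C P) {x q : X}
    (hq : q ∈ C) (hvar : ∀ y ∈ C, ⟪x - q, y - q⟫ ≤ 0) : P x = q := by
  have h1 := variational hC hP x q hq
  have h2 := hvar (P x) (hP x).1
  have h3 : ⟪P x - q, P x - q⟫ ≤ 0 := by
    have e1 : ⟪x - q, P x - q⟫ = ⟪x - P x, P x - q⟫ + ⟪P x - q, P x - q⟫ := by
      rw [← inner_add_left]
      congr 1
      abel
    have e2 : ⟪x - P x, q - P x⟫ = -⟪x - P x, P x - q⟫ := by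
      rw [← inner_neg_right]
      congr 1
      abel
    linarith
  have h4 : P x - q = 0 := by
    rw [real_inner_self_eq_norm_sq] at h3
    have : ‖P x - q‖ = 0 := by
      have := sq_nonneg ‖P x - q‖
      exact pow_eq_zero_iff (two_ne_zero) |>.1 (le_antisymm h3 this)
    exact norm_eq_zero.1 this
  exact sub_eq_zero.1 h4

theorem reflector_nonexpansive {C : Set X} (hC : Convex ℝ C) {P : X → X} (hP : IsProjection C P)
    (x y : X) : ‖reflector P x - reflector P y‖ ^ 2 ≤ ‖x - y‖ ^ 2 := by
  have h1 := variational hC hP x (P y) (hP y).1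
  have h2 := variational hC hP y (P x) (hP x).1
  have h3 : ‖P x - P y‖ ^ 2 ≤ ⟪x - y, P x - P y⟫ := by
    have e : ⟪x - y, P x - P y⟫ = -⟪x - P x, P y - P x⟫ - ⟪y - P y, P x - P y⟫ +
        ⟪P x - P y, P x - P y⟫ := by
      rw [← inner_neg_right, neg_sub, ← inner_sub_left, ← inner_add_left]
      congr 1
      abel
    rw [← real_inner_self_eq_norm_sq]
    linarith
  have h4 : reflector P x - reflector P y = (2 : ℝ) • (P x - P y) - (x - y) := by
    simp only [reflector]
    module
  rw [h4, norm_sub_sq_real, norm_smul, inner_smul_left, real_inner_comm]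
  simp only [conj_trivial, Real.norm_ofNat]
  have h5 : (2 * ‖P x - P y‖) ^ 2 = 4 * ‖P x - P y‖ ^ 2 := by ring
  rw [h5]
  linarith

theorem drOp_firm {A B : Set X} (hA : Convex ℝ A) (hB : Convex ℝ B) {PA PB : X → X}
    (hPA : IsProjection A PA) (hPB : IsProjection B PB) (x y : X) :
    ‖drOp PA PB x - drOp PA PB y‖ ^ 2 +
      ‖(x - drOp PA PB x) - (y - drOp PA PB y)‖ ^ 2 ≤ ‖x - y‖ ^ 2 := by
  have h : ‖reflector PB (reflector PA x) - reflector PB (reflector PA y)‖ ^ 2 ≤ ‖x - y‖ ^ 2 :=
    (reflector_nonexpansive hB hPB _ _).trans (reflector_nonexpansive hA hPA _ _)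
  set N := reflector PB (reflector PA x) - reflector PB (reflector PA y) with hN
  have e1 : drOp PA PB x - drOp PA PB y = (1 / 2 : ℝ) • ((x - y) + N) := by
    simp only [drOp, hN]
    module
  have e2 : (x - drOp PA PB x) - (y - drOp PA PB y) = (1 / 2 : ℝ) • ((x - y) - N) := by
    simp only [drOp, hN]
    module
  rw [e1, e2, norm_smul, norm_smul, mul_pow, mul_pow, norm_add_sq_real (x - y) N,
    norm_sub_sq_real (x - y) N]
  have e3 : ‖(1 / 2 : ℝ)‖ ^ 2 = 1 / 4 := by norm_num
  rw [e3]
  linarith

theorem sub_drOp (PA PB : X → X) (x : X) :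
    x - drOp PA PB x = PA x - PB (reflector PA x) := by
  simp only [drOp, reflector]
  module

/-! ### Balls: collinearity -/

theorem collinear_ball {a : X} {r : ℝ} {P : X → X} (hP : IsProjection (closedBall a r) P)
    (x : X) : ∃ c : ℝ, P x = a + c • (x - a) := by
  by_cases hx : x = P x
  · exact ⟨1, by rw [← hx]; module⟩
  have hne : x - P x ≠ 0 := sub_ne_zero.2 hx
  have hn : 0 < ‖x - P x‖ := norm_pos_iff.2 hne
  have hp := (hP x).1
  rw [mem_closedBall, dist_eq_norm] at hp
  have hr : 0 ≤ r := (norm_nonneg _).trans hp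
  set u := (1 / ‖x - P x‖) • (x - P x) with hu
  have hun : ‖u‖ = 1 := by
    rw [hu, norm_smul, Real.norm_of_nonneg (by positivity)]
    field_simp
  have hy : a + r • u ∈ closedBall a r := by
    rw [mem_closedBall, dist_eq_norm, add_sub_cancel_left, norm_smul, hun, mul_one,
      Real.norm_of_nonneg hr]
  have hv := variational (convex_closedBall a r) hP x _ hy
  have hxu : x - P x = ‖x - P x‖ • u := by
    rw [hu, smul_smul, mul_one_div_cancel hn.ne', one_smul]
  -- `⟪u, P x - a⟫ ≥ r`
  have h1 : r ≤ ⟪u, P x - a⟫ := by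
    have h2 : ⟪x - P x, a + r • u - P x⟫ = ‖x - P x‖ * (r - ⟪u, P x - a⟫) := by
      conv_lhs => rw [hxu]
      rw [inner_smul_left]
      congr 1
      have : a + r • u - P x = r • u - (P x - a) := by abel
      rw [this, inner_sub_right, inner_smul_right, real_inner_self_eq_norm_sq, hun]
      ring
    rw [h2] at hv
    have := nonpos_of_mul_nonpos_right hv hn
    linarith
  have h3 : P x - a = r • u := by
    have h4 : ‖P x - a - r • u‖ ^ 2 ≤ 0 := by
      rw [norm_sub_sq_real, inner_smul_right, norm_smul, hun, mul_one, Real.norm_of_nonneg hr,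
        real_inner_comm]
      have h5 : ‖P x - a‖ ^ 2 ≤ r ^ 2 := pow_le_pow_left₀ (norm_nonneg _) hp 2
      have h6 : r * r ≤ r * ⟪u, P x - a⟫ := mul_le_mul_of_nonneg_left h1 hr
      nlinarith
    have h7 : ‖P x - a - r • u‖ = 0 :=
      pow_eq_zero_iff (two_ne_zero) |>.1 (le_antisymm h4 (sq_nonneg _))
    exact sub_eq_zero.1 (norm_eq_zero.1 h7)
  -- hence `x - a = (r + ‖x - P x‖) u`
  have h8 : x - a = (r + ‖x - P x‖) • u := by
    calc x - a = (x - P x) + (P x - a) := by abel
      _ = ‖x - P x‖ • u + r • u := by rw [h3, ← hxu]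
      _ = (r + ‖x - P x‖) • u := by module
  have h9 : 0 < r + ‖x - P x‖ := by linarith
  refine ⟨r / (r + ‖x - P x‖), ?_⟩
  rw [h8, smul_smul, div_mul_cancel₀ _ h9.ne', ← h3]
  abel

/-! ### A lemma on real sequences -/

theorem tendsto_of_sq {b : ℕ → ℝ} {B : ℝ} (h1 : Tendsto (fun n => b n ^ 2) atTop (𝓝 B))
    (h2 : Tendsto (fun n => b (n + 1) - b n) atTop (𝓝 0)) : ∃ l, Tendsto b atTop (𝓝 l) := by
  have habs : Tendsto (fun n => |b n|) atTop (𝓝 (√B)) := by
    have := (Real.continuous_sqrt.tendsto B).comp h1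
    refine this.congr (fun n => ?_)
    simp [Real.sqrt_sq_eq_abs]
  rcases eq_or_lt_of_le (Real.sqrt_nonneg B) with h0 | hpos
  · rw [← h0] at habs
    exact ⟨0, (tendsto_zero_iff_abs_tendsto_zero _).2 habs⟩
  set w := √B with hw
  have e1 : ∀ᶠ n in atTop, w / 2 < |b n| := habs.eventually (lt_mem_nhds (by linarith))
  have e2 : ∀ᶠ n in atTop, |b (n + 1) - b n| < w / 2 := by
    have := (tendsto_zero_iff_abs_tendsto_zero _).1 h2
    exact this.eventually (gt_mem_nhds (by linarith))
  obtain ⟨N, hN⟩ := eventually_atTop.1 (e1.and e2)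
  rcases lt_trichotomy (b N) 0 with hneg | hz | hp
  · have hall : ∀ n, N ≤ n → b n < 0 := by
      intro n hn
      induction n, hn using Nat.le_induction with
      | base => exact hneg
      | succ n hn ih =>
        have k1 := (hN n hn).1
        have k2 := (hN n hn).2
        rw [abs_of_neg ih] at k1
        rw [abs_lt] at k2
        linarith [k2.2]
    refine ⟨-w, ?_⟩
    have : Tendsto (fun n => -|b n|) atTop (𝓝 (-w)) := habs.neg
    refine this.congr' ?_
    filter_upwards [eventually_ge_atTop N] with n hn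
    rw [abs_of_neg (hall n hn), neg_neg]
  · exfalso
    have := (hN N le_rfl).1
    rw [hz, abs_zero] at this
    linarith
  · have hall : ∀ n, N ≤ n → 0 < b n := by
      intro n hn
      induction n, hn using Nat.le_induction with
      | base => exact hp
      | succ n hn ih =>
        have k1 := (hN n hn).1
        have k2 := (hN n hn).2
        rw [abs_of_pos ih] at k1
        rw [abs_lt] at k2
        linarith [k2.1]
    refine ⟨w, habs.congr' ?_⟩
    filter_upwards [eventually_ge_atTop N] with n hn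
    rw [abs_of_pos (hall n hn)]

/-! ### Firmly nonexpansive operators -/

/-- `T` is firmly nonexpansive. -/
def Firm (T : X → X) : Prop :=
  ∀ x y, ‖T x - T y‖ ^ 2 + ‖(x - T x) - (y - T y)‖ ^ 2 ≤ ‖x - y‖ ^ 2

/-- If the displacement `v` is attained along the whole orbit of `f`, then the shifted iterates
`y n = T^n x + n v` have nonincreasing distance to `f` and `y (n+1) - y n → 0`. -/
theorem fejer {T : X → X} (hT : Firm T) {v f : X} (hf : ∀ n : ℕ, T^[n] f = f - (n : ℝ) • v)
    (x : X) :
    (∃ ρ : ℝ, Tendsto (fun n : ℕ => ‖T^[n] x + (n : ℝ) • v - f‖ ^ 2) atTop (𝓝 ρ)) ∧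
    Tendsto (fun n : ℕ => (T^[n + 1] x + ((n + 1 : ℕ) : ℝ) • v) - (T^[n] x + (n : ℝ) • v))
      atTop (𝓝 0) := by
  set y : ℕ → X := fun n => T^[n] x + (n : ℝ) • v with hy
  have key : ∀ n, ‖y (n + 1) - f‖ ^ 2 + ‖y (n + 1) - y n‖ ^ 2 ≤ ‖y n - f‖ ^ 2 := by
    intro n
    have h := hT (T^[n] x) (T^[n] f)
    have h1 : T (T^[n] f) = f - ((n + 1 : ℕ) : ℝ) • v := by
      rw [← Function.iterate_succ_apply' T n f, hf (n + 1)]
    have h2 : T (T^[n] x) = T^[n + 1] x := (Function.iterate_succ_apply' T n x).symm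
    rw [h1, h2, hf n] at h
    have e1 : T^[n + 1] x - (f - ((n + 1 : ℕ) : ℝ) • v) = y (n + 1) - f := by
      simp only [hy]; module
    have e2 : T^[n] x - (f - (n : ℝ) • v) = y n - f := by
      simp only [hy]; module
    have e3 : T^[n] x - T^[n + 1] x - (f - (n : ℝ) • v - (f - ((n + 1 : ℕ) : ℝ) • v)) =
        -(y (n + 1) - y n) := by
      simp only [hy]; push_cast; module
    rwa [e1, e2, e3, norm_neg] at h
  have hanti : Antitone (fun n => ‖y n - f‖ ^ 2) := by
    apply antitone_nat_of_succ_le
    intro n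
    have := key n
    have := sq_nonneg ‖y (n + 1) - y n‖
    linarith
  have hbdd : BddBelow (Set.range fun n => ‖y n - f‖ ^ 2) := ⟨0, by
    rintro _ ⟨n, rfl⟩
    positivity⟩
  have hlim := tendsto_atTop_ciInf hanti hbdd
  set ρ := ⨅ n, ‖y n - f‖ ^ 2 with hρ
  refine ⟨⟨ρ, hlim⟩, ?_⟩
  have hdiff : Tendsto (fun n => ‖y n - f‖ ^ 2 - ‖y (n + 1) - f‖ ^ 2) atTop (𝓝 0) := by
    have := hlim.sub (hlim.comp (tendsto_add_atTop_nat 1))
    simpa using this
  have hsq : Tendsto (fun n => ‖y (n + 1) - y n‖ ^ 2) atTop (𝓝 0) :=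
    squeeze_zero (fun n => by positivity) (fun n => by linarith [key n]) hdiff
  have hn : Tendsto (fun n => ‖y (n + 1) - y n‖) atTop (𝓝 0) := by
    have := (Real.continuous_sqrt.tendsto 0).comp hsq
    rw [Real.sqrt_zero] at this
    refine this.congr (fun n => ?_)
    simp [Real.sqrt_sq (norm_nonneg _)]
  exact tendsto_zero_iff_norm_tendsto_zero.2 hn

/-! ### Intersecting balls -/

omit [InnerProductSpace ℝ X] in
theorem continuous_of_firm {T : X → X} (hT : Firm T) : Continuous T := by
  have h : LipschitzWith 1 T := by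
    apply LipschitzWith.of_dist_le_mul
    intro x y
    rw [NNReal.coe_one, one_mul, dist_eq_norm, dist_eq_norm]
    have h1 := hT x y
    have h2 := sq_nonneg ‖(x - T x) - (y - T y)‖
    exact le_of_sq_le_sq (by linarith) (norm_nonneg _)
  exact h.continuous

theorem fixed_case {T : X → X} (hT : Firm T) {f : X} (hf : T f = f) (x a : X) (W : Submodule ℝ X)
    [FiniteDimensional ℝ W] (hW : ∀ n : ℕ, T^[n] x - a ∈ W) :
    ∃ l, Tendsto (fun n : ℕ => T^[n] x) atTop (𝓝 l) := by
  have hfix : ∀ {g : X}, T g = g → ∀ n : ℕ, T^[n] g = g - (n : ℝ) • (0 : X) := by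
    intro g hg n
    rw [smul_zero, sub_zero]
    exact Function.iterate_fixed hg n
  have hF := fejer hT (hfix hf) x
  simp only [smul_zero, add_zero] at hF
  obtain ⟨⟨ρ, hρ⟩, hd⟩ := hF
  -- bounded sequence in `W`
  let w : ℕ → W := fun n => ⟨T^[n] x - a, hW n⟩
  obtain ⟨M, hM⟩ := hρ.bddAbove_range
  have hbd : ∀ n, ‖w n‖ ≤ √M + ‖f - a‖ := by
    intro n
    have h1 : ‖T^[n] x - f‖ ^ 2 ≤ M := hM ⟨n, rfl⟩
    have h2 : ‖T^[n] x - f‖ ≤ √M := by
      rw [← Real.sqrt_sq (norm_nonneg (T^[n] x - f))]
      exact Real.sqrt_le_sqrt h1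
    have h3 : ‖w n‖ = ‖T^[n] x - a‖ := rfl
    rw [h3]
    calc ‖T^[n] x - a‖ = ‖(T^[n] x - f) + (f - a)‖ := by congr 1; abel
      _ ≤ ‖T^[n] x - f‖ + ‖f - a‖ := norm_add_le _ _
      _ ≤ _ := by linarith
  have hmem : ∀ n, w n ∈ closedBall (0 : W) (√M + ‖f - a‖) := fun n => by
    rw [mem_closedBall_zero_iff]
    exact hbd n
  obtain ⟨z, -, φ, hφ, hz⟩ := (isCompact_closedBall (0 : W) (√M + ‖f - a‖)).tendsto_subseq hmem
  have hz' : Tendsto (fun k => T^[φ k] x) atTop (𝓝 ((z : X) + a)) := by
    have h1 : Tendsto (fun k => ((w (φ k) : W) : X) + a) atTop (𝓝 ((z : X) + a)) :=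
      ((continuous_subtype_val.tendsto z).comp hz).add_const a
    refine h1.congr (fun k => ?_)
    simp [w]
  set g := (z : X) + a with hg
  have hTg : T g = g := by
    have h1 : Tendsto (fun k => T (T^[φ k] x)) atTop (𝓝 (T g)) :=
      ((continuous_of_firm hT).tendsto g).comp hz'
    have h2 : Tendsto (fun k => T (T^[φ k] x)) atTop (𝓝 g) := by
      have h3 := (hd.comp hφ.tendsto_atTop).add hz'
      rw [zero_add] at h3
      refine h3.congr (fun k => ?_)
      simp only [Function.comp]
      rw [Function.iterate_succ_apply' T]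
      abel
    exact tendsto_nhds_unique h1 h2
  obtain ⟨⟨σ, hσ⟩, -⟩ := fejer hT (hfix hTg) x
  simp only [smul_zero, add_zero] at hσ
  have hσ0 : σ = 0 := by
    have h1 : Tendsto (fun k => ‖T^[φ k] x - g‖ ^ 2) atTop (𝓝 σ) := hσ.comp hφ.tendsto_atTop
    have h2 : Tendsto (fun k => ‖T^[φ k] x - g‖ ^ 2) atTop (𝓝 0) := by
      have h3 := (tendsto_iff_norm_sub_tendsto_zero.1 hz').pow 2
      simpa using h3
    exact tendsto_nhds_unique h1 h2
  rw [hσ0] at hσ
  refine ⟨g, tendsto_iff_norm_sub_tendsto_zero.2 ?_⟩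
  have := (Real.continuous_sqrt.tendsto 0).comp hσ
  rw [Real.sqrt_zero] at this
  refine this.congr (fun n => ?_)
  simp [Real.sqrt_sq (norm_nonneg _)]

/-! ### The invariant plane -/

theorem drOp_mem {a b : X} {r s : ℝ} {PA PB : X → X} (hPA : IsProjection (closedBall a r) PA)
    (hPB : IsProjection (closedBall b s) PB) (W : Submodule ℝ X) (hb : b - a ∈ W) {x : X}
    (hx : x - a ∈ W) : drOp PA PB x - a ∈ W := by
  obtain ⟨c, hc⟩ := collinear_ball hPA x
  have h1 : PA x - a ∈ W := by
    rw [hc, add_sub_cancel_left]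
    exact W.smul_mem c hx
  have h2 : reflector PA x - a ∈ W := by
    have : reflector PA x - a = (2 : ℝ) • (PA x - a) - (x - a) := by
      simp only [reflector]; module
    rw [this]
    exact W.sub_mem (W.smul_mem _ h1) hx
  obtain ⟨c', hc'⟩ := collinear_ball hPB (reflector PA x)
  have h3 : PB (reflector PA x) - a ∈ W := by
    have : PB (reflector PA x) - a = (1 - c') • (b - a) + c' • (reflector PA x - a) := by
      rw [hc']; module
    rw [this]
    exact W.add_mem (W.smul_mem _ hb) (W.smul_mem _ h2)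
  have h4 : drOp PA PB x - a = (x - a) - ((PA x - a) - (PB (reflector PA x) - a)) := by
    have := sub_drOp PA PB x
    have e : drOp PA PB x = x - (PA x - PB (reflector PA x)) := by rw [← this]; abel
    rw [e]; abel
  rw [h4]
  exact W.sub_mem hx (W.sub_mem h1 h3)

theorem iterate_mem {a b : X} {r s : ℝ} {PA PB : X → X} (hPA : IsProjection (closedBall a r) PA)
    (hPB : IsProjection (closedBall b s) PB) (W : Submodule ℝ X) (hb : b - a ∈ W) {x : X}
    (hx : x - a ∈ W) (n : ℕ) : (drOp PA PB)^[n] x - a ∈ W := by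
  induction n with
  | zero => simpa using hx
  | succ n ih =>
    rw [Function.iterate_succ_apply']
    exact drOp_mem hPA hPB W hb ih

/-! ### Disjoint balls -/

theorem drOp_axis {a e : X} (he : ‖e‖ = 1) {r s d : ℝ} (hr : 0 ≤ r) (hs : 0 ≤ s)
    (hd : r + s < d) {PA PB : X → X} (hPA : IsProjection (closedBall a r) PA)
    (hPB : IsProjection (closedBall (a + d • e) s) PB) {t : ℝ} (ht : r ≤ t) :
    drOp PA PB (a + t • e) = a + (t + (d - r - s)) • e := by
  have hA : PA (a + t • e) = a + r • e := by
    apply projection_eq (convex_closedBall a r) hPA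
    · rw [mem_closedBall, dist_eq_norm, add_sub_cancel_left, norm_smul, he, mul_one,
        Real.norm_of_nonneg hr]
    · intro y hy
      rw [mem_closedBall, dist_eq_norm] at hy
      have e1 : a + t • e - (a + r • e) = (t - r) • e := by module
      have e2 : y - (a + r • e) = (y - a) - r • e := by module
      rw [e1, e2, inner_smul_left, inner_sub_right, inner_smul_right,
        real_inner_self_eq_norm_sq, he]
      simp only [conj_trivial]
      have h1 : ⟪e, y - a⟫ ≤ r := by
        have := real_inner_le_norm e (y - a)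
        rw [he, one_mul] at this
        linarith
      have h2 : 0 ≤ t - r := by linarith
      have h3 : ⟪e, y - a⟫ - r * 1 ^ 2 ≤ 0 := by linarith
      exact mul_nonpos_of_nonneg_of_nonpos h2 h3
  have hRA : reflector PA (a + t • e) = a + (2 * r - t) • e := by
    simp only [reflector]
    rw [hA]; module
  have hB : PB (a + (2 * r - t) • e) = a + (d - s) • e := by
    apply projection_eq (convex_closedBall (a + d • e) s) hPB
    · rw [mem_closedBall, dist_eq_norm]
      have : a + (d - s) • e - (a + d • e) = (-s) • e := by module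
      rw [this, norm_smul, he, mul_one, norm_neg, Real.norm_of_nonneg hs]
    · intro y hy
      rw [mem_closedBall, dist_eq_norm] at hy
      have e1 : a + (2 * r - t) • e - (a + (d - s) • e) = (2 * r - t - (d - s)) • e := by module
      have e2 : y - (a + (d - s) • e) = (y - (a + d • e)) + s • e := by module
      rw [e1, e2, inner_smul_left, inner_add_right, inner_smul_right,
        real_inner_self_eq_norm_sq, he]
      simp only [conj_trivial]
      have h1 : -s ≤ ⟪e, y - (a + d • e)⟫ := by
        have h4 := abs_real_inner_le_norm e (y - (a + d • e))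
        rw [he, one_mul] at h4
        have := neg_abs_le ⟪e, y - (a + d • e)⟫
        linarith
      have h2 : 2 * r - t - (d - s) ≤ 0 := by linarith
      have h3 : 0 ≤ ⟪e, y - (a + d • e)⟫ + s * 1 ^ 2 := by linarith
      exact mul_nonpos_of_nonpos_of_nonneg h2 h3
  simp only [drOp, reflector]
  simp only [reflector] at hRA
  rw [hRA, hB]
  module

theorem minimal_eq {a e : X} (he : ‖e‖ = 1) {r s d : ℝ} (hr : 0 ≤ r) (hs : 0 ≤ s)
    (hd : r + s < d) {PA PB : X → X} (hPA : IsProjection (closedBall a r) PA)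
    (hPB : IsProjection (closedBall (a + d • e) s) PB) {v : X}
    (hv : IsMinimalDisplacement (drOp PA PB) v) : v = -((d - r - s) • e) := by
  set g := d - r - s with hg
  have hg0 : 0 < g := by linarith
  have hsub : ∀ w ∈ closure (Set.range fun x => x - drOp PA PB x), ⟪w, e⟫ ≤ -g := by
    have hcl : IsClosed {w : X | ⟪w, e⟫ ≤ -g} :=
      isClosed_le (continuous_id.inner continuous_const) continuous_const
    intro w hw
    refine (closure_minimal ?_ hcl) hw
    rintro _ ⟨x, rfl⟩
    show ⟪x - drOp PA PB x, e⟫ ≤ -g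
    rw [sub_drOp]
    have h1 := (hPA x).1
    have h2 := (hPB (reflector PA x)).1
    rw [mem_closedBall, dist_eq_norm] at h1 h2
    have e1 : PA x - PB (reflector PA x) =
        (PA x - a) - (PB (reflector PA x) - (a + d • e)) - d • e := by module
    rw [e1, inner_sub_left, inner_sub_left, inner_smul_left, real_inner_self_eq_norm_sq, he]
    simp only [conj_trivial]
    have h3 := real_inner_le_norm (PA x - a) e
    have h4 := abs_real_inner_le_norm (PB (reflector PA x) - (a + d • e)) e
    rw [he, mul_one] at h3 h4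
    have h5 := neg_abs_le ⟪PB (reflector PA x) - (a + d • e), e⟫
    linarith
  have hmem : -(g • e) ∈ closure (Set.range fun x => x - drOp PA PB x) := by
    apply subset_closure
    refine ⟨a + r • e, ?_⟩
    show a + r • e - drOp PA PB (a + r • e) = -(g • e)
    rw [drOp_axis he hr hs hd hPA hPB le_rfl, ← hg]
    module
  have h1 := hsub v hv.1
  have h2 := hv.2 _ hmem
  rw [norm_neg, norm_smul, he, mul_one, Real.norm_of_nonneg hg0.le] at h2
  have h3 : ‖v + g • e‖ ^ 2 ≤ 0 := by
    rw [norm_add_sq_real, inner_smul_right, norm_smul, he, mul_one, Real.norm_of_nonneg hg0.le]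
    have h4 : ‖v‖ ^ 2 ≤ g ^ 2 := pow_le_pow_left₀ (norm_nonneg _) h2 2
    nlinarith
  have h5 : ‖v + g • e‖ = 0 :=
    pow_eq_zero_iff (two_ne_zero) |>.1 (le_antisymm h3 (sq_nonneg _))
  exact eq_neg_of_add_eq_zero_left (norm_eq_zero.1 h5)

theorem disjoint_case {a e : X} (he : ‖e‖ = 1) {r s d : ℝ} (hr : 0 ≤ r) (hs : 0 ≤ s)
    (hd : r + s < d) {PA PB : X → X} (hPA : IsProjection (closedBall a r) PA)
    (hPB : IsProjection (closedBall (a + d • e) s) PB) {v : X}
    (hv : IsMinimalDisplacement (drOp PA PB) v) (x : X) :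
    ∃ l, Tendsto (fun n : ℕ => (drOp PA PB)^[n] x + (n : ℝ) • v) atTop (𝓝 l) := by
  have hveq := minimal_eq he hr hs hd hPA hPB hv
  have hT : Firm (drOp PA PB) :=
    fun x y => drOp_firm (convex_closedBall _ _) (convex_closedBall _ _) hPA hPB x y
  -- the ray
  have hray : ∀ t : ℝ, r ≤ t → ∀ n : ℕ,
      (drOp PA PB)^[n] (a + t • e) = (a + t • e) - (n : ℝ) • v := by
    intro t ht n
    induction n with
    | zero => simp
    | succ n ih =>
      rw [Function.iterate_succ_apply', ih, hveq]
      have e1 : a + t • e - (n : ℝ) • -((d - r - s) • e) = a + (t + n * (d - r - s)) • e := by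
        module
      have hn : r ≤ t + n * (d - r - s) := by
        have : 0 ≤ (n : ℝ) * (d - r - s) := by
          apply mul_nonneg (Nat.cast_nonneg n)
          linarith
        linarith
      rw [e1, drOp_axis he hr hs hd hPA hPB hn]
      push_cast
      module
  set y : ℕ → X := fun n => (drOp PA PB)^[n] x + (n : ℝ) • v with hy
  obtain ⟨⟨ρ, hρ⟩, hdiff⟩ := fejer hT (hray r le_rfl) x
  obtain ⟨⟨σ, hσ⟩, -⟩ := fejer hT (hray (r + 1) (by linarith)) x
  -- coordinates
  set α : ℕ → ℝ := fun n => ⟪y n - a, e⟫ with hα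
  have hexp : ∀ (t : ℝ) (n : ℕ),
      ‖y n - (a + t • e)‖ ^ 2 = ‖y n - a‖ ^ 2 - 2 * t * α n + t ^ 2 := by
    intro t n
    have : y n - (a + t • e) = (y n - a) - t • e := by module
    rw [this, norm_sub_sq_real, inner_smul_right, norm_smul, he, mul_one, Real.norm_eq_abs,
      sq_abs]
    ring
  have hαlim : ∃ A, Tendsto α atTop (𝓝 A) := by
    refine ⟨((ρ - σ) - (r ^ 2 - (r + 1) ^ 2)) / 2, ?_⟩
    have h1 := ((hρ.sub hσ).sub_const (r ^ 2 - (r + 1) ^ 2)).div_const 2
    refine h1.congr (fun n => ?_)
    have e1 := hexp r n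
    have e2 := hexp (r + 1) n
    simp only [hy] at e1 e2 ⊢
    rw [e1, e2]
    ring
  obtain ⟨A, hA⟩ := hαlim
  have hnorm : ∃ N, Tendsto (fun n => ‖y n - a‖ ^ 2) atTop (𝓝 N) := by
    refine ⟨ρ + 2 * r * A - r ^ 2, ?_⟩
    have h1 := (hρ.add (hA.const_mul (2 * r))).sub_const (r ^ 2)
    refine h1.congr (fun n => ?_)
    have e1 := hexp r n
    simp only [hy] at e1 ⊢
    rw [e1]
    ring
  obtain ⟨N, hN⟩ := hnorm
  -- the plane
  set p : X := (x - a) - ⟪x - a, e⟫ • e with hp
  have hpe : ⟪p, e⟫ = 0 := by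
    rw [hp, inner_sub_left, inner_smul_left, real_inner_self_eq_norm_sq, he]
    simp
  set W : Submodule ℝ X := Submodule.span ℝ {e, p} with hW
  have heW : e ∈ W := Submodule.subset_span (by simp)
  have hpW : p ∈ W := Submodule.subset_span (by simp)
  have hxW : x - a ∈ W := by
    have : x - a = p + ⟪x - a, e⟫ • e := by rw [hp]; abel
    rw [this]
    exact W.add_mem hpW (W.smul_mem _ heW)
  have hbW : (a + d • e) - a ∈ W := by
    rw [add_sub_cancel_left]
    exact W.smul_mem _ heW
  have hyW : ∀ n, y n - a ∈ W := by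
    intro n
    have h1 := iterate_mem hPA hPB W hbW hxW n
    have h2 : y n - a = ((drOp PA PB)^[n] x - a) + (n : ℝ) • v := by
      simp only [hy]; abel
    rw [h2, hveq]
    exact W.add_mem h1 (W.smul_mem _ (W.neg_mem (W.smul_mem _ heW)))
  have hcoord : ∀ n, ∃ β : ℝ, y n - a = α n • e + β • p := by
    intro n
    obtain ⟨c, β, hc⟩ := Submodule.mem_span_pair.1 (hyW n)
    refine ⟨β, ?_⟩
    have : α n = c := by
      simp only [hα]
      rw [← hc, inner_add_left, inner_smul_left, inner_smul_left,
        real_inner_self_eq_norm_sq, he, hpe]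
      simp
    rw [this, hc]
  choose β hβ using hcoord
  by_cases hp0 : p = 0
  · refine ⟨a + A • e, ?_⟩
    have h1 : Tendsto (fun n => a + α n • e) atTop (𝓝 (a + A • e)) :=
      tendsto_const_nhds.add (hA.smul_const e)
    refine h1.congr (fun n => ?_)
    have h2 := hβ n
    rw [hp0, smul_zero, add_zero] at h2
    rw [← h2]
    abel
  have hpn : 0 < ‖p‖ ^ 2 := by
    have : 0 < ‖p‖ := norm_pos_iff.2 hp0
    positivity
  have hβsq : Tendsto (fun n => β n ^ 2) atTop (𝓝 ((N - A ^ 2) / ‖p‖ ^ 2)) := by
    have h1 := (hN.sub (hA.pow 2)).div_const (‖p‖ ^ 2)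
    refine h1.congr (fun n => ?_)
    rw [hβ n, norm_add_sq_real, inner_smul_left, inner_smul_right, real_inner_comm, hpe,
      norm_smul, norm_smul, he, mul_one, Real.norm_eq_abs, Real.norm_eq_abs, mul_pow, sq_abs,
      sq_abs]
    field_simp
    simp
  have hβd : Tendsto (fun n => β (n + 1) - β n) atTop (𝓝 0) := by
    have h1 : Tendsto (fun n => ⟪y (n + 1) - y n, p⟫ / ‖p‖ ^ 2) atTop (𝓝 0) := by
      have h2 : Tendsto (fun n => ⟪y (n + 1) - y n, p⟫) atTop (𝓝 ⟪(0 : X), p⟫) :=
        (hdiff.inner tendsto_const_nhds)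
      rw [inner_zero_left] at h2
      have h3 := h2.div_const (‖p‖ ^ 2)
      rwa [zero_div] at h3
    refine h1.congr (fun n => ?_)
    have e1 : y (n + 1) - y n = (α (n + 1) - α n) • e + (β (n + 1) - β n) • p := by
      have h2 := hβ n
      have h3 := hβ (n + 1)
      calc y (n + 1) - y n = (y (n + 1) - a) - (y n - a) := by abel
        _ = _ := by rw [h2, h3]; module
    rw [e1, inner_add_left, inner_smul_left, inner_smul_left, real_inner_comm, hpe,
      real_inner_self_eq_norm_sq]
    simp only [conj_trivial, mul_zero, zero_add]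
    field_simp
  obtain ⟨B, hB⟩ := tendsto_of_sq hβsq hβd
  refine ⟨a + (A • e + B • p), ?_⟩
  have h1 : Tendsto (fun n => a + (α n • e + β n • p)) atTop (𝓝 (a + (A • e + B • p))) :=
    tendsto_const_nhds.add ((hA.smul_const e).add (hB.smul_const p))
  refine h1.congr (fun n => ?_)
  rw [← hβ n]
  abel

/-- **Shifted Douglas-Rachford iterates for two balls converge.**  Let `A`, `B` be two closed
balls (nonempty: radii `r, s ≥ 0`) of a real inner product space, in particular of `ℝ³`, `P_A`,
`P_B` the nearest-point projections, `T = (Id + R_B R_A) / 2` the Douglas-Rachford operator, and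
`v` the element of least norm of the closure of the range of `Id - T`.  Then for every `x` the
sequence `T^n x + n v` converges in norm. -/
theorem result {X : Type*} [NormedAddCommGroup X] [InnerProductSpace ℝ X]
    (a b : X) (r s : ℝ) (hr : 0 ≤ r) (hs : 0 ≤ s) (PA PB : X → X)
    (hPA : IsProjection (closedBall a r) PA) (hPB : IsProjection (closedBall b s) PB)
    (v : X) (hv : IsMinimalDisplacement (drOp PA PB) v) (x : X) :
    ∃ l, Tendsto (fun n : ℕ => (drOp PA PB)^[n] x + (n : ℝ) • v) atTop (𝓝 l) := by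
  rcases le_or_gt ‖b - a‖ (r + s) with hle | hgt
  · -- a common point
    have hc : ∃ c : X, c ∈ closedBall a r ∧ c ∈ closedBall b s := by
      rcases eq_or_lt_of_le (add_nonneg hr hs) with h0 | h0
      · have hr0 : r = 0 := by linarith
        have hs0 : s = 0 := by linarith
        have hab : b = a := by
          rw [← h0] at hle
          exact sub_eq_zero.1 (norm_le_zero_iff.1 hle)
        exact ⟨a, by simp [hr0], by simp [hab, hs0]⟩
      · refine ⟨a + (r / (r + s)) • (b - a), ?_, ?_⟩
        · rw [mem_closedBall, dist_eq_norm, add_sub_cancel_left, norm_smul,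
            Real.norm_of_nonneg (by positivity)]
          calc r / (r + s) * ‖b - a‖ ≤ r / (r + s) * (r + s) := by
                exact mul_le_mul_of_nonneg_left hle (by positivity)
            _ = r := div_mul_cancel₀ _ h0.ne'
        · have e1 : a + (r / (r + s)) • (b - a) - b = (-(s / (r + s))) • (b - a) := by
            have : s / (r + s) = 1 - r / (r + s) := by field_simp; ring
            rw [this]; module
          rw [mem_closedBall, dist_eq_norm, e1, norm_smul, norm_neg,
            Real.norm_of_nonneg (by positivity)]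
          calc s / (r + s) * ‖b - a‖ ≤ s / (r + s) * (r + s) := by
                exact mul_le_mul_of_nonneg_left hle (by positivity)
            _ = s := div_mul_cancel₀ _ h0.ne'
    obtain ⟨c, hcA, hcB⟩ := hc
    have h1 : PA c = c := projection_eq (convex_closedBall a r) hPA hcA (by simp)
    have h2 : PB c = c := projection_eq (convex_closedBall b s) hPB hcB (by simp)
    have h3 : reflector PA c = c := by
      simp only [reflector]; rw [h1]; module
    have h4 : drOp PA PB c = c := by
      simp only [drOp]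
      rw [h3]
      simp only [reflector]; rw [h2]; module
    have hv0 : v = 0 := by
      have h5 : (0 : X) ∈ closure (Set.range fun x => x - drOp PA PB x) :=
        subset_closure ⟨c, by simp [h4]⟩
      have := hv.2 0 h5
      rw [norm_zero] at this
      exact norm_le_zero_iff.1 this
    have hT : Firm (drOp PA PB) :=
      fun x y => drOp_firm (convex_closedBall _ _) (convex_closedBall _ _) hPA hPB x y
    have hfd : FiniteDimensional ℝ (Submodule.span ℝ ({b - a, x - a} : Set X)) :=
      FiniteDimensional.span_of_finite ℝ (Set.toFinite _)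
    obtain ⟨l, hl⟩ := fixed_case hT h4 x a (Submodule.span ℝ ({b - a, x - a} : Set X))
      (fun n => iterate_mem hPA hPB _ (Submodule.subset_span (by simp))
        (Submodule.subset_span (by simp)) n)
    refine ⟨l, ?_⟩
    rw [hv0]
    simpa using hl
  · have hd0 : 0 < ‖b - a‖ := lt_of_le_of_lt (add_nonneg hr hs) hgt
    set e : X := (1 / ‖b - a‖) • (b - a) with he
    have hen : ‖e‖ = 1 := by
      rw [he, norm_smul, Real.norm_of_nonneg (by positivity)]
      field_simp
    have hb : b = a + ‖b - a‖ • e := by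
      rw [he, smul_smul, mul_one_div_cancel hd0.ne', one_smul]
      abel
    have hPB' : IsProjection (closedBall (a + ‖b - a‖ • e) s) PB := by rwa [← hb]
    exact disjoint_case hen hr hs hgt hPA hPB' hv x

end Pool.Agent.Results.MP_ef197a_an.ShiftedIteratesConverge
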